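import Pool.Agent.Helper76_LAG.Stmt

/-!
# LAG, module PAR
-/

set_option autoImplicit false

namespace Pool.Agent.LAG

namespace ParH59

lemma bern (n : ℕ) : 2 * n ^ (n + 1) ≤ (n + 1) ^ (n + 1) := by
  have h : ∀ k : ℕ, n ^ k * (n + k) ≤ n * (n + 1) ^ k := by
    intro k
    induction k with
    | zero => simp
    | succ k ih =>
      calc n ^ (k + 1) * (n + (k + 1)) = n ^ k * (n * (n + k) + n) := by ring
        _ ≤ n ^ k * ((n + 1) * (n + k)) := by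
            apply Nat.mul_le_mul_left
            nlinarith
        _ = (n + 1) * (n ^ k * (n + k)) := by ring
        _ ≤ (n + 1) * (n * (n + 1) ^ k) := Nat.mul_le_mul_left _ ih
        _ = n * (n + 1) ^ (k + 1) := by ring
  rcases Nat.eq_zero_or_pos n with rfl | hn
  · simp
  · have h1 := h (n + 1)
    have h2 : n * (2 * n ^ (n + 1)) ≤ n * (n + 1) ^ (n + 1) := by
      calc n * (2 * n ^ (n + 1)) = n ^ (n + 1) * (n + n) := by ring
        _ ≤ n ^ (n + 1) * (n + (n + 1)) := Nat.mul_le_mul_left _ (by omega)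
        _ ≤ _ := h1
    exact Nat.le_of_mul_le_mul_left h2 hn

lemma decay (L m a : ℕ) (hL : 1 ≤ L) (ha : L * m ≤ a) : 2 ^ m * (L - 1) ^ a ≤ L ^ a := by
  obtain ⟨n, rfl⟩ : ∃ n, L = n + 1 := ⟨L - 1, by omega⟩
  simp only [Nat.add_sub_cancel]
  obtain ⟨b, rfl⟩ := Nat.exists_eq_add_of_le ha
  have h1 : (2 * n ^ (n + 1)) ^ m ≤ ((n + 1) ^ (n + 1)) ^ m := Nat.pow_le_pow_left (bern n) m
  have h2 : n ^ b ≤ (n + 1) ^ b := Nat.pow_le_pow_left (by omega) b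
  calc 2 ^ m * n ^ ((n + 1) * m + b) = (2 * n ^ (n + 1)) ^ m * n ^ b := by
        rw [mul_pow, pow_add, ← pow_mul]; ring
    _ ≤ ((n + 1) ^ (n + 1)) ^ m * (n + 1) ^ b := Nat.mul_le_mul h1 h2
    _ = (n + 1) ^ ((n + 1) * m + b) := by rw [← pow_mul, ← pow_add]

end ParH59

lemma ParH59.kk (T l : ℕ) (hT : 100 ≤ T) (hl : 100 ≤ l) : KK T l ≤ 16 * (l * T) := by
  have h1 : 20 * T ≤ l * T := Nat.mul_le_mul_right _ (by omega)
  have h2 : 15 * l ≤ l * T := by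
    rw [Nat.mul_comm 15 l]; exact Nat.mul_le_mul_left _ (by omega)
  have h3 : 10 ≤ l * T := by nlinarith
  unfold KK
  nlinarith

open ParH59 in
lemma ParH59.main (q h T l L : ℕ) (hq : 2 ≤ q) (hh : 2 ^ 273 * q ^ 122 ≤ 3 ^ h)
    (hT : T = 2 ^ 45 * q ^ 24) (hl : l = 2 ^ 12 * q) (hL : L = 2 ^ 36 * q ^ 23) :
    4 ≤ L ∧ 86 ≤ T ∧ 1 ≤ l ∧ 512 * KK T l * q ^ 21 ≤ L ^ 2 ∧
    96 * KK T l * T * (L - 1) ^ ((T - 43) / 2) ≤ L ^ ((T - 43) / 2) ∧
    6400 * KK T l * l * T * (2 * T + l) ^ 3 ≤ 3 ^ h := by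
  have hp : ∀ k, 1 ≤ q ^ k := fun k => Nat.one_le_pow _ _ (by omega)
  have hT1 : 100 ≤ T := by
    rw [hT]
    calc 100 ≤ 2 ^ 45 * 1 := by norm_num
      _ ≤ _ := Nat.mul_le_mul_left _ (hp 24)
  have hl1 : 100 ≤ l := by
    rw [hl]
    calc 100 ≤ 2 ^ 12 * 1 := by norm_num
      _ ≤ _ := Nat.mul_le_mul_left _ (by omega)
  have hL1 : 4 ≤ L := by
    rw [hL]
    calc 4 ≤ 2 ^ 36 * 1 := by norm_num
      _ ≤ _ := Nat.mul_le_mul_left _ (hp 23)
  have hKK : KK T l ≤ 2 ^ 61 * q ^ 25 := by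
    refine le_trans (kk _ _ hT1 hl1) (le_of_eq ?_)
    rw [hT, hl]
    ring
  refine ⟨hL1, le_trans (by norm_num) hT1, le_trans (by norm_num) hl1, ?_, ?_, ?_⟩
  · calc 512 * KK T l * q ^ 21
        ≤ 512 * (2 ^ 61 * q ^ 25) * q ^ 21 :=
          Nat.mul_le_mul_right _ (Nat.mul_le_mul_left _ hKK)
      _ = 2 ^ 70 * q ^ 46 := by ring
      _ ≤ 2 ^ 72 * q ^ 46 := Nat.mul_le_mul_right _ (by norm_num)
      _ = L ^ 2 := by rw [hL]; ring
  · have ha : L * (128 * q) ≤ (T - 43) / 2 := by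
      have e1 : 4 * (L * (128 * q)) = T := by rw [hL, hT]; ring
      have e3 : 100 ≤ L * (128 * q) := by
        calc 100 ≤ 4 * (128 * 1) := by norm_num
          _ ≤ _ := Nat.mul_le_mul hL1 (Nat.mul_le_mul_left _ (by omega))
      generalize L * (128 * q) = x at e1 e3 ⊢
      omega
    have hd := decay L (128 * q) _ (by omega) ha
    refine le_trans (Nat.mul_le_mul_right _ ?_) hd
    have hqq : q ≤ 2 ^ (q - 1) := by
      have := Nat.lt_two_pow_self (n := q - 1)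
      omega
    have e4 : T * (2 ^ 61 * q ^ 25) = 2 ^ 106 * q ^ 49 := by rw [hT]; ring
    calc 96 * KK T l * T
        ≤ 96 * (2 ^ 61 * q ^ 25) * T :=
          Nat.mul_le_mul_right _ (Nat.mul_le_mul_left _ hKK)
      _ = 96 * (T * (2 ^ 61 * q ^ 25)) := by ring
      _ = 96 * 2 ^ 106 * q ^ 49 := by rw [e4]; ring
      _ ≤ 2 ^ 113 * q ^ 49 := Nat.mul_le_mul_right _ (by norm_num)
      _ ≤ 2 ^ 113 * (2 ^ (q - 1)) ^ 49 := Nat.mul_le_mul_left _ (Nat.pow_le_pow_left hqq _)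
      _ = 2 ^ (113 + (q - 1) * 49) := by rw [← pow_mul, ← pow_add]
      _ ≤ 2 ^ (128 * q) := Nat.pow_le_pow_right (by norm_num) (by omega)
  · have h4 : 2 * T + l ≤ 4 * T := by
      have : l ≤ T := by
        rw [hT, hl]
        apply Nat.mul_le_mul (by norm_num)
        calc q = q ^ 1 := (pow_one q).symm
          _ ≤ q ^ 24 := Nat.pow_le_pow_right (by omega) (by norm_num)
      omega
    refine le_trans ?_ hh
    have e5 : (2 ^ 61 * q ^ 25) * l * T * (4 * T) ^ 3 = 2 ^ 130 * 2 ^ 129 * q ^ 122 := by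
      rw [hT, hl]; ring
    calc 6400 * KK T l * l * T * (2 * T + l) ^ 3
        ≤ 6400 * (2 ^ 61 * q ^ 25) * l * T * (4 * T) ^ 3 := by
          apply Nat.mul_le_mul
          · exact Nat.mul_le_mul_right _ (Nat.mul_le_mul_right _ (Nat.mul_le_mul_left _ hKK))
          · exact Nat.pow_le_pow_left h4 3
      _ = 6400 * ((2 ^ 61 * q ^ 25) * l * T * (4 * T) ^ 3) := by ring
      _ = (6400 * (2 ^ 130 * 2 ^ 129)) * q ^ 122 := by rw [e5]; ring
      _ ≤ 2 ^ 273 * q ^ 122 := Nat.mul_le_mul_right _ (by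
          rw [show (2 : ℕ) ^ 273 = 2 ^ 130 * 2 ^ 143 by rw [← pow_add]]; norm_num)

theorem par : ParStmt := fun Δ h hh => ParH59.main (Δ + 2) h _ _ _ (by omega) hh rfl rfl rfl

end Pool.Agent.LAG
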