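import Pool.Agent.Helper76_LAG.Stmt

/-!
# LAG, modules DED and CMP1
-/

set_option autoImplicit false

namespace Pool.Agent.LAG

open SimpleGraph

theorem ded (hA : DedAStmt) (hB : DedBStmt) : DedStmt := by
  intro V L T l E ω hTame hno c v w hw
  by_contra hle
  push Not at hle
  have hC : IsC (CG E ω T c) w.getVert w.length := by
    refine ⟨hw.three_le_length, fun t ht => w.adj_getVert_succ ht, ?_, ?_⟩
    · rw [w.getVert_length, w.getVert_zero]
    · intro s t hs ht hst
      exact hw.getVert_injOn' (by simp only [Set.mem_ofPred_eq]; omega)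
        (by simp only [Set.mem_ofPred_eq]; omega) hst
  obtain ⟨r, a, b, p, w', v', hcfg⟩ := hA V L T l E ω hTame c w.getVert w.length hC hle
  obtain ⟨n, z, y, κ, hn, hB'⟩ := hB V L T l E ω hTame c r a b p w' v' hcfg
  exact hno n z r y κ hn hB'

theorem cmp1 : Cmp1Stmt := by
  classical
  intro V _ F S hdeg hS v c hc
  let c' : F.Walk v v := c.mapLe (F.deleteEdges_le S)
  have hc' : c'.IsCycle := hc.mapLe _
  have hsupp : c'.support = c.support := by simp [c', Walk.mapLe]
  have hedges : c'.edges = c.edges := by simp [c', Walk.mapLe]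
  -- all edges at vertices of the cycle are edges of the cycle
  have key : ∀ x ∈ c'.support, ∀ y, F.Adj x y → s(x, y) ∈ c'.edges := by
    intro x hx y hxy
    have h2 := hc'.ncard_neighborSet_toSubgraph_eq_two hx
    have hsub : c'.toSubgraph.neighborSet x ⊆ F.neighborSet x := fun z hz => hz.adj_sub
    have heq : c'.toSubgraph.neighborSet x = F.neighborSet x :=
      Set.eq_of_subset_of_ncard_le hsub (by rw [h2]; exact hdeg x) (Set.toFinite _)
    have : y ∈ c'.toSubgraph.neighborSet x := by rw [heq]; exact hxy
    have h3 : c'.toSubgraph.Adj x y := this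
    rw [← Subgraph.mem_edgeSet, Walk.mem_edges_toSubgraph] at h3
    exact h3
  obtain ⟨e, heS, heF, u, hue, hvu⟩ := hS v c' hc'
  have hu : u ∈ c'.support := by
    obtain ⟨p⟩ := hvu
    have : ∀ (a b : V) (p : F.Walk a b), a ∈ c'.support → b ∈ c'.support := by
      intro a b p
      induction p with
      | nil => exact id
      | cons h p ih =>
        intro ha
        exact ih (c'.snd_mem_support_of_mem_edges (key _ ha _ h))
    exact this _ _ p c'.start_mem_support
  obtain ⟨w, rfl⟩ := Sym2.mem_iff_exists.1 hue
  have h1 : s(u, w) ∈ c'.edges := key u hu w heF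
  rw [hedges] at h1
  have h2 := c.edges_subset_edgeSet h1
  rw [edgeSet_deleteEdges] at h2
  exact h2.2 heS

end Pool.Agent.LAG
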