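import Pool.Agent.Helper76_LAG.Stmt

/-!
# LAG, module HIT
-/

set_option autoImplicit false

namespace Pool.Agent.LAG

namespace HitH59

/-- number of residues -/
lemma card_mod (M N a : ℕ) (hd : N ∣ M) :
    N * Nat.card {x : Fin M // x.val % N = a} ≤ M := by
  have h1 : Nat.card {x : Fin M // x.val % N = a} ≤ Nat.card (Fin (M / N)) := by
    apply Nat.card_le_card_of_injective
      (fun x : {x : Fin M // x.val % N = a} =>
        (⟨x.1.val / N, Nat.div_lt_div_of_lt_of_dvd hd x.1.isLt⟩ : Fin (M / N)))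
    rintro ⟨x, hx⟩ ⟨y, hy⟩ h
    simp only [Fin.mk.injEq] at h
    apply Subtype.ext
    apply Fin.ext
    change x.val = y.val
    rw [← Nat.div_add_mod x.val N, ← Nat.div_add_mod y.val N, h, hx, hy]
  rw [Nat.card_fin] at h1
  calc N * _ ≤ N * (M / N) := Nat.mul_le_mul_left _ h1
    _ = M := Nat.mul_div_cancel' hd

open Classical in
/-- probability of the event for a pair -/
lemma card_pair (hPrd : PrdStmt) (I : Type) [Fintype I] (M : ℕ) (hM : 1 ≤ M) (i j : I)
    (hij : i ≠ j) (Ni Nj a b : ℕ) (h1 : 1 ≤ Ni) (h2 : 1 ≤ Nj) (hd1 : Ni ∣ M) (hd2 : Nj ∣ M) :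
    Ni * Nj * Nat.card {ω : I → Fin M // (ω i).val % Ni = a ∧ (ω j).val % Nj = b} ≤
      Nat.card (I → Fin M) := by
  have h := hPrd I (Fin M) {i, j}
    (fun v x => (v = i → x.val % Ni = a) ∧ (v = j → x.val % Nj = b))
  have e1 : Nat.card {ω : I → Fin M // ∀ v ∈ ({i, j} : Finset I),
      (v = i → (ω v).val % Ni = a) ∧ (v = j → (ω v).val % Nj = b)} =
      Nat.card {ω : I → Fin M // (ω i).val % Ni = a ∧ (ω j).val % Nj = b} := by
    apply Nat.card_congr
    apply Equiv.subtypeEquivRight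
    intro ω
    simp only [Finset.mem_insert, Finset.mem_singleton]
    constructor
    · intro h
      exact ⟨(h i (Or.inl rfl)).1 rfl, (h j (Or.inr rfl)).2 rfl⟩
    · rintro ⟨ha, hb⟩ v -
      exact ⟨fun e => e ▸ ha, fun e => e ▸ hb⟩
  rw [e1, Finset.card_pair hij, Finset.prod_pair hij] at h
  have e2 : Nat.card {x : Fin M // (i = i → x.val % Ni = a) ∧ (i = j → x.val % Nj = b)} =
      Nat.card {x : Fin M // x.val % Ni = a} := by
    apply Nat.card_congr
    apply Equiv.subtypeEquivRight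
    intro x
    simp [hij]
  have e3 : Nat.card {x : Fin M // (j = i → x.val % Ni = a) ∧ (j = j → x.val % Nj = b)} =
      Nat.card {x : Fin M // x.val % Nj = b} := by
    apply Nat.card_congr
    apply Equiv.subtypeEquivRight
    intro x
    simp [Ne.symm hij]
  rw [e2, e3, Nat.card_fin] at h
  have g1 := card_mod M Ni a hd1
  have g2 := card_mod M Nj b hd2
  have hMM : 0 < M ^ 2 := by positivity
  apply Nat.le_of_mul_le_mul_right _ hMM
  calc Ni * Nj * Nat.card {ω : I → Fin M // (ω i).val % Ni = a ∧ (ω j).val % Nj = b} * M ^ 2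
      = Ni * Nj * (Nat.card {ω : I → Fin M // (ω i).val % Ni = a ∧ (ω j).val % Nj = b} *
          M ^ 2) := by ring
    _ = (Ni * Nat.card {x : Fin M // x.val % Ni = a}) *
          (Nj * Nat.card {x : Fin M // x.val % Nj = b}) * Nat.card (I → Fin M) := by
        rw [h]; ring
    _ ≤ M * M * Nat.card (I → Fin M) := Nat.mul_le_mul_right _ (Nat.mul_le_mul g1 g2)
    _ = Nat.card (I → Fin M) * M ^ 2 := by ring

section

variable {I : Type} [Fintype I] (N1 N2 : ℕ) (kind : I → Bool) (R : I → ℕ → I → ℕ → Prop)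

/-- number of options -/
def nn (i : I) : ℕ := if kind i then N1 else N2

/-- the bad event of a pair -/
def BB (i j : I) (a b : ℕ) (ω : I → Fin (N1 * N2)) : Prop :=
  i ≠ j ∧ R i a j b ∧ (ω i).val % nn N1 N2 kind i = a ∧ (ω j).val % nn N1 N2 kind j = b

/-- its size -/
noncomputable def XX (i j : I) (a b : ℕ) : ℕ :=
  Nat.card {ω : I → Fin (N1 * N2) // BB N1 N2 kind R i j a b ω}

variable {N1 N2 kind R}

lemma nn_pos (h1 : 1 ≤ N1) (h2 : 1 ≤ N2) (i : I) : 1 ≤ nn N1 N2 kind i := by
  unfold nn; split_ifs <;> assumption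

lemma nn_dvd (i : I) : nn N1 N2 kind i ∣ N1 * N2 := by
  unfold nn; split_ifs
  · exact Dvd.intro _ rfl
  · exact Dvd.intro_left _ rfl

lemma XX_symm (hR : ∀ i a j b, R i a j b → R j b i a) (i j : I) (a b : ℕ) :
    XX N1 N2 kind R i j a b = XX N1 N2 kind R j i b a := by
  apply Nat.card_congr
  apply Equiv.subtypeEquivRight
  intro ω
  constructor
  · rintro ⟨h1, h2, h3, h4⟩
    exact ⟨h1.symm, hR _ _ _ _ h2, h4, h3⟩
  · rintro ⟨h1, h2, h3, h4⟩
    exact ⟨h1.symm, hR _ _ _ _ h2, h4, h3⟩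

lemma XX_zero (i j : I) (a b : ℕ) (h : ∀ ω, ¬ BB N1 N2 kind R i j a b ω) :
    XX N1 N2 kind R i j a b = 0 := by
  have : IsEmpty {ω : I → Fin (N1 * N2) // BB N1 N2 kind R i j a b ω} := ⟨fun ω => h ω.1 ω.2⟩
  exact Nat.card_of_isEmpty

lemma XX_le (hPrd : PrdStmt) (h1 : 1 ≤ N1) (h2 : 1 ≤ N2) (i j : I) (a b : ℕ) :
    nn N1 N2 kind i * nn N1 N2 kind j * XX N1 N2 kind R i j a b ≤
      Nat.card (I → Fin (N1 * N2)) := by
  by_cases hij : i = j
  · rw [XX_zero i j a b (fun ω h => h.1 hij)]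
    simp
  · refine le_trans (Nat.mul_le_mul_left _ ?_)
      (card_pair hPrd I (N1 * N2) (Nat.mul_pos h1 h2) i j hij (nn N1 N2 kind i)
        (nn N1 N2 kind j) a b (nn_pos h1 h2 i) (nn_pos h1 h2 j) (nn_dvd i) (nn_dvd j))
    apply Nat.card_le_card_of_injective (fun ω => ⟨ω.1, ω.2.2.2.1, ω.2.2.2.2⟩)
    rintro ⟨x, hx⟩ ⟨y, hy⟩ h
    simpa using h

open Classical in
lemma XX_bound (hPrd : PrdStmt) (h1 : 1 ≤ N1) (h2 : 1 ≤ N2) (i j : I) (a b : ℕ) :
    nn N1 N2 kind i * (N1 * N2) * XX N1 N2 kind R i j a b ≤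
      (if kind j = true ∧ b < N1 ∧ R i a j b then N2 * Nat.card (I → Fin (N1 * N2)) else 0) +
      (if kind j = false ∧ b < N2 ∧ R i a j b then N1 * Nat.card (I → Fin (N1 * N2)) else 0) := by
  have hX := XX_le (kind := kind) (R := R) hPrd h1 h2 i j a b
  by_cases hR : R i a j b
  · by_cases hk : kind j = true
    · have hn : nn N1 N2 kind j = N1 := by simp [nn, hk]
      rw [hn] at hX
      by_cases hb : b < N1
      · simp only [hk, hb, hR, and_self, if_true, Bool.true_eq_false, false_and, if_false,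
          Nat.add_zero]
        calc nn N1 N2 kind i * (N1 * N2) * XX N1 N2 kind R i j a b
            = N2 * (nn N1 N2 kind i * N1 * XX N1 N2 kind R i j a b) := by ring
          _ ≤ _ := Nat.mul_le_mul_left _ hX
      · rw [XX_zero i j a b]
        · simp
        · rintro ω ⟨-, -, -, h⟩
          rw [hn] at h
          exact hb (h ▸ Nat.mod_lt _ h1)
    · have hk' : kind j = false := by simpa using hk
      have hn : nn N1 N2 kind j = N2 := by simp [nn, hk']
      rw [hn] at hX
      by_cases hb : b < N2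
      · simp only [hk', hb, hR, and_self, if_true, Bool.false_eq_true, false_and, if_false,
          Nat.zero_add]
        calc nn N1 N2 kind i * (N1 * N2) * XX N1 N2 kind R i j a b
            = N1 * (nn N1 N2 kind i * N2 * XX N1 N2 kind R i j a b) := by ring
          _ ≤ _ := Nat.mul_le_mul_left _ hX
      · rw [XX_zero i j a b]
        · simp
        · rintro ω ⟨-, -, -, h⟩
          rw [hn] at h
          exact hb (h ▸ Nat.mod_lt _ h2)
  · rw [XX_zero i j a b (fun ω h => hR h.2.1)]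
    simp

lemma sum_ite_le (M N c : ℕ) (K : ℕ) (P : I → ℕ → Prop) [∀ i b, Decidable (P i b)]
    (hfin : {p : I × ℕ | P p.1 p.2}.ncard ≤ c) (hP : ∀ i b, P i b → b < N) :
    ∑ j : I, ∑ b : Fin M, (if P j b then K else 0) ≤ c * K := by
  rw [← Fintype.sum_prod_type', Finset.sum_ite, Finset.sum_const_zero, Finset.sum_const,
    Nat.add_zero, smul_eq_mul]
  apply Nat.mul_le_mul_right
  refine le_trans ?_ hfin
  rw [← Set.ncard_coe_finset]
  have hinj : Function.Injective (fun p : I × Fin M => (p.1, p.2.val)) := by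
    rintro ⟨x, y⟩ ⟨x', y'⟩ h
    simp only [Prod.mk.injEq] at h
    exact Prod.ext h.1 (Fin.ext h.2)
  rw [← Set.ncard_image_of_injective _ hinj]
  apply Set.ncard_le_ncard
  · rintro _ ⟨⟨x, y⟩, hxy, rfl⟩
    simpa using hxy
  · apply Set.Finite.subset ((Set.finite_univ (α := I)).prod (Set.finite_Iio N))
    rintro ⟨x, y⟩ hxy
    exact ⟨Set.mem_univ _, hP x y hxy⟩

open Classical in
lemma sum_X (hPrd : PrdStmt) (h1 : 1 ≤ N1) (h2 : 1 ≤ N2) (c1 c2 : ℕ) (i : I)
    (hc : ∀ a, a < (if kind i then N1 else N2) →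
      {p : I × ℕ | kind p.1 = true ∧ p.2 < N1 ∧ R i a p.1 p.2}.ncard ≤ c1 ∧
      {p : I × ℕ | kind p.1 = false ∧ p.2 < N2 ∧ R i a p.1 p.2}.ncard ≤ c2) :
    N1 * N2 * ∑ a : Fin (N1 * N2), ∑ j : I, ∑ b : Fin (N1 * N2), XX N1 N2 kind R i j a b ≤
      (c1 * N2 + c2 * N1) * Nat.card (I → Fin (N1 * N2)) := by
  set C := Nat.card (I → Fin (N1 * N2)) with hC
  have hni := nn_pos (kind := kind) h1 h2 i
  have step : ∀ a : Fin (N1 * N2),
      nn N1 N2 kind i * (N1 * N2) * ∑ j : I, ∑ b : Fin (N1 * N2), XX N1 N2 kind R i j a b ≤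
        if a.val < nn N1 N2 kind i then (c1 * N2 + c2 * N1) * C else 0 := by
    intro a
    by_cases ha : a.val < nn N1 N2 kind i
    · rw [if_pos ha, Finset.mul_sum]
      simp only [Finset.mul_sum]
      calc ∑ j : I, ∑ b : Fin (N1 * N2),
            nn N1 N2 kind i * (N1 * N2) * XX N1 N2 kind R i j a b
          ≤ ∑ j : I, ∑ b : Fin (N1 * N2),
            ((if kind j = true ∧ b.val < N1 ∧ R i a j b then N2 * C else 0) +
              (if kind j = false ∧ b.val < N2 ∧ R i a j b then N1 * C else 0)) :=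
            Finset.sum_le_sum fun j _ => Finset.sum_le_sum fun b _ =>
              XX_bound hPrd h1 h2 i j a b
        _ = ∑ j : I, ∑ b : Fin (N1 * N2),
              (if kind j = true ∧ b.val < N1 ∧ R i a j b then N2 * C else 0) +
            ∑ j : I, ∑ b : Fin (N1 * N2),
              (if kind j = false ∧ b.val < N2 ∧ R i a j b then N1 * C else 0) := by
            rw [← Finset.sum_add_distrib]
            exact Finset.sum_congr rfl fun j _ => Finset.sum_add_distrib
        _ ≤ c1 * (N2 * C) + c2 * (N1 * C) := by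
            apply Nat.add_le_add
            · exact sum_ite_le (N1 * N2) N1 c1 (N2 * C)
                (fun j b => kind j = true ∧ b < N1 ∧ R i a j b) (hc a ha).1
                (fun j b h => h.2.1)
            · exact sum_ite_le (N1 * N2) N2 c2 (N1 * C)
                (fun j b => kind j = false ∧ b < N2 ∧ R i a j b) (hc a ha).2
                (fun j b h => h.2.1)
        _ = (c1 * N2 + c2 * N1) * C := by ring
    · rw [if_neg ha]
      have : ∑ j : I, ∑ b : Fin (N1 * N2), XX N1 N2 kind R i j a b = 0 := by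
        refine Finset.sum_eq_zero fun j _ => Finset.sum_eq_zero fun b _ => ?_
        apply XX_zero
        rintro ω ⟨-, -, h, -⟩
        exact ha (h ▸ Nat.mod_lt _ hni)
      rw [this]
      simp
  have total : nn N1 N2 kind i * (N1 * N2 * ∑ a : Fin (N1 * N2), ∑ j : I,
      ∑ b : Fin (N1 * N2), XX N1 N2 kind R i j a b) ≤
      nn N1 N2 kind i * ((c1 * N2 + c2 * N1) * C) := by
    calc nn N1 N2 kind i * (N1 * N2 * ∑ a : Fin (N1 * N2), ∑ j : I,
          ∑ b : Fin (N1 * N2), XX N1 N2 kind R i j a b)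
        = ∑ a : Fin (N1 * N2), nn N1 N2 kind i * (N1 * N2) * ∑ j : I,
          ∑ b : Fin (N1 * N2), XX N1 N2 kind R i j a b := by
          rw [← Finset.mul_sum]; ring
      _ ≤ ∑ a : Fin (N1 * N2),
          if a.val < nn N1 N2 kind i then (c1 * N2 + c2 * N1) * C else 0 :=
          Finset.sum_le_sum fun a _ => step a
      _ = (Finset.univ.filter fun a : Fin (N1 * N2) => a.val < nn N1 N2 kind i).card *
          ((c1 * N2 + c2 * N1) * C) := by
          rw [Finset.sum_ite, Finset.sum_const_zero, Finset.sum_const, Nat.add_zero, smul_eq_mul]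
      _ ≤ _ := by
          apply Nat.mul_le_mul_right
          have : (Finset.univ.filter fun a : Fin (N1 * N2) => a.val < nn N1 N2 kind i).card ≤
              (Finset.range (nn N1 N2 kind i)).card := by
            apply Finset.card_le_card_of_injOn (fun a => a.val)
            · intro a ha
              simpa using ha
            · intro a _ b _ h
              exact Fin.ext h
          simpa using this
  exact Nat.le_of_mul_le_mul_left total hni

end

end HitH59

open HitH59 in
open Classical in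
theorem hit (hAlll : AlllStmt) (hPrd : PrdStmt) : HitStmt := by
  intro I _ N1 N2 c1 c2 kind R h1 h2 hnum hsymm hc
  set C := Nat.card (I → Fin (N1 * N2)) with hC
  have : Nonempty (Fin (N1 * N2)) := ⟨⟨0, Nat.mul_pos h1 h2⟩⟩
  have main : ∃ ω : I → Fin (N1 * N2),
      ∀ e : (I × I) × (Fin (N1 * N2) × Fin (N1 * N2)),
        ¬ BB N1 N2 kind R e.1.1 e.1.2 e.2.1 e.2.2 ω := by
    apply hAlll I (Fin (N1 * N2)) ((I × I) × (Fin (N1 * N2) × Fin (N1 * N2)))
      (fun e ω => BB N1 N2 kind R e.1.1 e.1.2 e.2.1 e.2.2 ω) (fun e _ => {e.1.1, e.1.2}) 2 le_rfl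
    · rintro ⟨⟨i, j⟩, a, b⟩ ω ω' ⟨g1, g2, g3, g4⟩ hω
      refine ⟨⟨g1, g2, ?_, ?_⟩, rfl⟩
      · rw [← hω i (by simp)]; exact g3
      · rw [← hω j (by simp)]; exact g4
    · rintro ⟨⟨i, j⟩, a, b⟩ ω -
      exact ⟨⟨i, by simp⟩, Finset.card_le_two⟩
    · intro v
      have hS : N1 * N2 * ∑ e : (I × I) × (Fin (N1 * N2) × Fin (N1 * N2)),
          Nat.card {ω : I → Fin (N1 * N2) // BB N1 N2 kind R e.1.1 e.1.2 e.2.1 e.2.2 ω ∧
            v ∈ ({e.1.1, e.1.2} : Finset I)} ≤ 2 * ((c1 * N2 + c2 * N1) * C) := by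
        have hb : ∀ e : (I × I) × (Fin (N1 * N2) × Fin (N1 * N2)),
            Nat.card {ω : I → Fin (N1 * N2) // BB N1 N2 kind R e.1.1 e.1.2 e.2.1 e.2.2 ω ∧
              v ∈ ({e.1.1, e.1.2} : Finset I)} ≤
            (if e.1.1 = v then XX N1 N2 kind R v e.1.2 e.2.1 e.2.2 else 0) +
            (if e.1.2 = v then XX N1 N2 kind R v e.1.1 e.2.2 e.2.1 else 0) := by
          rintro ⟨⟨i, j⟩, a, b⟩
          have hle : Nat.card {ω : I → Fin (N1 * N2) // BB N1 N2 kind R i j a b ω ∧
              v ∈ ({i, j} : Finset I)} ≤ XX N1 N2 kind R i j a b := by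
            apply Nat.card_le_card_of_injective (fun ω => ⟨ω.1, ω.2.1⟩)
            rintro ⟨x, hx⟩ ⟨y, hy⟩ h
            simpa using h
          dsimp only
          by_cases hi : i = v
          · subst hi
            rw [if_pos rfl]
            exact le_trans hle (Nat.le_add_right _ _)
          · by_cases hj : j = v
            · subst hj
              rw [if_neg hi, if_pos rfl, Nat.zero_add, ← XX_symm hsymm]
              exact hle
            · have : IsEmpty {ω : I → Fin (N1 * N2) // BB N1 N2 kind R i j a b ω ∧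
                  v ∈ ({i, j} : Finset I)} := by
                refine ⟨fun ω => ?_⟩
                have := ω.2.2
                simp only [Finset.mem_insert, Finset.mem_singleton] at this
                rcases this with h | h
                · exact hi h.symm
                · exact hj h.symm
              rw [Nat.card_of_isEmpty]
              exact Nat.zero_le _
        have hv := sum_X hPrd h1 h2 c1 c2 v (hc v)
        have s1 : ∑ e : (I × I) × (Fin (N1 * N2) × Fin (N1 * N2)),
            (if e.1.1 = v then XX N1 N2 kind R v e.1.2 e.2.1 e.2.2 else 0) =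
            ∑ a : Fin (N1 * N2), ∑ j : I, ∑ b : Fin (N1 * N2), XX N1 N2 kind R v j a b := by
          rw [Fintype.sum_prod_type]
          simp only [Fintype.sum_prod_type]
          rw [Finset.sum_eq_single v]
          · simp only [if_true]
            rw [Finset.sum_comm]
          · intro i _ hi
            simp [hi]
          · intro h
            exact (h (Finset.mem_univ _)).elim
        have s2 : ∑ e : (I × I) × (Fin (N1 * N2) × Fin (N1 * N2)),
            (if e.1.2 = v then XX N1 N2 kind R v e.1.1 e.2.2 e.2.1 else 0) =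
            ∑ a : Fin (N1 * N2), ∑ j : I, ∑ b : Fin (N1 * N2), XX N1 N2 kind R v j a b := by
          rw [← s1]
          apply Fintype.sum_equiv ((Equiv.prodComm I I).prodCongr (Equiv.prodComm _ _))
          rintro ⟨⟨i, j⟩, a, b⟩
          simp
        calc N1 * N2 * ∑ e : (I × I) × (Fin (N1 * N2) × Fin (N1 * N2)),
              Nat.card {ω : I → Fin (N1 * N2) // BB N1 N2 kind R e.1.1 e.1.2 e.2.1 e.2.2 ω ∧
                v ∈ ({e.1.1, e.1.2} : Finset I)}
            ≤ N1 * N2 * ∑ e : (I × I) × (Fin (N1 * N2) × Fin (N1 * N2)),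
              ((if e.1.1 = v then XX N1 N2 kind R v e.1.2 e.2.1 e.2.2 else 0) +
              (if e.1.2 = v then XX N1 N2 kind R v e.1.1 e.2.2 e.2.1 else 0)) :=
              Nat.mul_le_mul_left _ (Finset.sum_le_sum fun e _ => hb e)
          _ = N1 * N2 * ∑ a : Fin (N1 * N2), ∑ j : I, ∑ b : Fin (N1 * N2),
                XX N1 N2 kind R v j a b +
              N1 * N2 * ∑ a : Fin (N1 * N2), ∑ j : I, ∑ b : Fin (N1 * N2),
                XX N1 N2 kind R v j a b := by
              rw [Finset.sum_add_distrib, s1, s2, Nat.mul_add]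
          _ ≤ _ := by
              rw [two_mul]
              exact Nat.add_le_add hv hv
      have hM : 0 < N1 * N2 := Nat.mul_pos h1 h2
      apply Nat.le_of_mul_le_mul_left _ hM
      calc N1 * N2 * (4 * 2 * ∑ e : (I × I) × (Fin (N1 * N2) × Fin (N1 * N2)),
            Nat.card {ω : I → Fin (N1 * N2) // BB N1 N2 kind R e.1.1 e.1.2 e.2.1 e.2.2 ω ∧
              v ∈ ({e.1.1, e.1.2} : Finset I)})
          = 8 * (N1 * N2 * ∑ e : (I × I) × (Fin (N1 * N2) × Fin (N1 * N2)),
            Nat.card {ω : I → Fin (N1 * N2) // BB N1 N2 kind R e.1.1 e.1.2 e.2.1 e.2.2 ω ∧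
              v ∈ ({e.1.1, e.1.2} : Finset I)}) := by ring
        _ ≤ 8 * (2 * ((c1 * N2 + c2 * N1) * C)) := Nat.mul_le_mul_left _ hS
        _ = (16 * (c1 * N2 + c2 * N1)) * C := by ring
        _ ≤ N1 * N2 * C := Nat.mul_le_mul_right _ hnum
  obtain ⟨ω, hω⟩ := main
  refine ⟨fun i => (ω i).val % nn N1 N2 kind i, fun i => Nat.mod_lt _ (nn_pos h1 h2 i), ?_⟩
  intro i j hij hR
  have hlt : ∀ i, (ω i).val % nn N1 N2 kind i < N1 * N2 := fun i =>
    lt_of_lt_of_le (Nat.mod_lt _ (nn_pos h1 h2 i)) (Nat.le_of_dvd (Nat.mul_pos h1 h2) (nn_dvd i))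
  exact hω ((i, j), (⟨_, hlt i⟩, ⟨_, hlt j⟩)) ⟨hij, hR, rfl, rfl⟩

end Pool.Agent.LAG
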